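import Pool.Agent.Lib.MP_d79f69_nt.All
import Pool.Agent.Lib.MP_d79f69_nt.NF

open NumberField
open scoped nonZeroDivisors

namespace Pool.Agent.Results.MP_d79f69_nt.CubicHecke

/-- Hardy's theorem for the L-function of a nontrivial unramified Hecke character of a totally
real cubic field. -/
theorem result (K : Type*) [Field K] [NumberField K] [IsTotallyReal K]
    (h3 : Module.finrank ℚ K = 3) (χ : (Ideal (𝓞 K))⁰ →* ℂ) (ν : InfinitePlace K → ℝ)
    (hν : ∑ w, ν w = 0)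
    (hχ : ∀ (α : 𝓞 K) (hα : Ideal.span {α} ∈ (Ideal (𝓞 K))⁰),
      χ ⟨Ideal.span {α}, hα⟩ = ∏ w : InfinitePlace K, ((w α : ℝ) : ℂ) ^ (Complex.I * ν w))
    (hne : χ ≠ 1) :
    ∃ L : ℂ → ℂ, Differentiable ℂ L ∧
      (∀ s : ℂ, 1 < s.re → HasSum
        (fun I : (Ideal (𝓞 K))⁰ => χ I * (Ideal.absNorm (I : Ideal (𝓞 K)) : ℂ) ^ (-s)) (L s)) ∧
      {t : ℝ | L (1 / 2 + t * Complex.I) = 0}.Infinite := by
  obtain ⟨D, hN, hD⟩ := Pool.Agent.CubH.sNF K h3 χ ν hν hχ hne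
  obtain ⟨L, h1, h2, h4⟩ := Pool.Agent.CubH.hardyAbs _ _ D
  refine ⟨L, h1, fun s hs => ?_, h4⟩
  have hpos : ∀ I, 0 < D.Nn I := fun I => by
    by_cases h : I = D.I0
    · rw [h, D.hN0]; exact one_pos
    · linarith [D.hN I h]
  have hsum : Summable fun I => D.χ I * (D.Nn I : ℂ) ^ (-s) := by
    refine Summable.of_norm_bounded (D.hsum s.re hs) fun I => ?_
    rw [norm_mul, Complex.norm_cpow_eq_rpow_re_of_pos (hpos I), Complex.neg_re]
    exact mul_le_of_le_one_left (Real.rpow_nonneg (hpos I).le _) (D.hχ I)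
  have := hsum.hasSum
  rw [h2 s hs]
  unfold Pool.Agent.CubH.DS
  simpa only [hN, hD, Complex.ofReal_natCast] using this

end Pool.Agent.Results.MP_d79f69_nt.CubicHecke
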