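import Pool.Agent.Lib.MP_d79f69_nt.Z3.All

/-!
The cubic moment of Hardy's function, with shifts: a power saving.
-/

open Complex

theorem Pool.Agent.Results.MP_d79f69_nt.CubicMoment.result (Z : ℝ → ℂ)
    (hZ : ∀ t : ℝ, Z t = riemannZeta (1 / 2 + t * I) *
      (Gammaℝ (1 / 2 + t * I) / (‖Gammaℝ (1 / 2 + t * I)‖ : ℝ)))
    (a b c : ℝ) :
    ∃ C : ℝ, ∀ T : ℝ, 1 ≤ T →
      ‖∫ t in (0 : ℝ)..T, Z (t + a) * Z (t + b) * Z (t + c)‖ ≤ C * T ^ (1 - (1 : ℝ) / 120000) := by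
  have e : Z = Pool.Agent.CubZ.Zf := funext hZ
  rw [e]
  exact Pool.Agent.CubZ.cubic a b c
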