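import Pool.Agent.Lib.MP_d79f69_nt.Bar.All

open Complex
open scoped ComplexConjugate

theorem Pool.Agent.Results.MP_d79f69_nt.HardyFails.result (ν : Fin 3 → ℝ) :
    ∃ (a : ℕ → ℂ) (L Λ : ℂ → ℂ),
      (∀ ε : ℝ, 0 < ε → ∃ C : ℝ, ∀ n : ℕ, 1 ≤ n → ‖a n‖ ≤ C * (n : ℝ) ^ ε) ∧
      (∀ s : ℂ, 1 < s.re → LSeriesHasSum a s (L s)) ∧
      Differentiable ℂ L ∧ Differentiable ℂ Λ ∧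
      (∀ s : ℂ, L s = Λ s / ∏ j, Gammaℝ (s - I * ν j)) ∧
      (∀ s : ℂ, Λ (1 - conj s) = conj (Λ s)) ∧
      (∀ σ₁ σ₂ : ℝ, ∃ C : ℝ, ∀ s : ℂ, σ₁ ≤ s.re → s.re ≤ σ₂ → ‖Λ s‖ ≤ C) ∧
      {t : ℝ | L (1 / 2 + t * I) = 0}.Finite :=
  Pool.Agent.Bar58.main ν
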