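import Pool.Agent.Lib.MP_d79f69_nt.H4All

open NumberField

namespace Pool.Agent.Results.MP_d79f69_nt.HilbertHardy

/-- Hardy's theorem for the degree four L-function of a Hilbert cusp form of even weight
`(2p, 2q)` on `SL(2, 𝓞 K)`, `K` real quadratic with embeddings `σ`, `τ`, when the weight is not
parallel or two conjugate Hecke operators `T_π`, `T_π'` at an odd split prime have different
eigenvalues. `P` is the set of totally positive elements of the inverse different, `R` a system of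
representatives of `P` modulo squares of units. -/
theorem result (K : Type*) [Field K] [NumberField K] (hK : Module.finrank ℚ K = 2)
    (σ τ : K →+* ℝ) (hστ : σ ≠ τ) (p q : ℕ) (hp : 1 ≤ p) (hq : 1 ≤ q)
    (P : Set K)
    (hP : P = {ν | 0 < σ ν ∧ 0 < τ ν ∧ ∀ x : 𝓞 K, ∃ n : ℤ, σ (ν * x) + τ (ν * x) = n})
    (f : ℂ → ℂ → ℂ) (a : K → ℝ)
    (hF : ∀ z w : ℂ, 0 < z.im → 0 < w.im → HasSum (fun ν : P =>
      (a ν : ℂ) * Complex.exp (2 * Real.pi * Complex.I * (σ ν * z + τ ν * w))) (f z w))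
    (hM : ∀ α β γ δ : 𝓞 K, α * δ - β * γ = 1 → ∀ z w : ℂ, 0 < z.im → 0 < w.im →
      f ((σ α * z + σ β) / (σ γ * z + σ δ)) ((τ α * w + τ β) / (τ γ * w + τ δ)) =
        (σ γ * z + σ δ) ^ (2 * p) * (τ γ * w + τ δ) ^ (2 * q) * f z w)
    (hB : ∃ C : ℝ, ∀ z w : ℂ, 0 < z.im → 0 < w.im → ‖f z w‖ * z.im ^ p * w.im ^ q ≤ C)
    (hH : p ≠ q ∨ ∃ (π π' : 𝓞 K) (l : ℕ) (c c' : ℂ), l.Prime ∧ l ≠ 2 ∧ π * π' = l ∧
      IsCoprime π π' ∧ 0 < σ π ∧ 0 < τ π ∧ σ π' = τ π ∧ τ π' = σ π ∧ c ≠ c' ∧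
      (∀ z w : ℂ, 0 < z.im → 0 < w.im → (l : ℂ) ^ (2 * p - 1) * f (σ π * z) (τ π * w) +
        (l : ℂ)⁻¹ * ∑ j ∈ Finset.range l, f ((z + j) / σ π) ((w + j) / τ π) = c * f z w) ∧
      ∀ z w : ℂ, 0 < z.im → 0 < w.im → (l : ℂ) ^ (2 * p - 1) * f (σ π' * z) (τ π' * w) +
        (l : ℂ)⁻¹ * ∑ j ∈ Finset.range l, f ((z + j) / σ π') ((w + j) / τ π') = c' * f z w)
    (R : Set K) (hR : R ⊆ P)
    (hR' : ∀ ν ∈ P, ∃! ρ, ρ ∈ R ∧ ∃ v : (𝓞 K)ˣ, ν = ρ * ((v : 𝓞 K) : K) ^ 2) :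
    ∃ L : ℂ → ℂ, Differentiable ℂ L ∧
      (∀ s : ℂ, 2 < s.re → HasSum (fun ρ : R =>
        ((a ρ * σ ρ ^ (1 / 2 - (p : ℝ)) * τ ρ ^ (1 / 2 - (q : ℝ)) : ℝ) : ℂ) *
          ((σ ρ * τ ρ : ℝ) : ℂ) ^ (-s)) (L s)) ∧
      {t : ℝ | L (1 / 2 + t * Complex.I) = 0}.Infinite := by
  subst hP
  obtain ⟨C, hC⟩ := hB
  have hpq : p ≠ q ∨ Pool.Agent.HilH.Hk p q f := by
    rcases eq_or_ne p q with rfl | h
    · obtain ⟨π, π', l, c, c', k1, k2, k3, k4, k5, k6, k7, k8, k9, k10, k11⟩ :=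
        hH.resolve_left fun h => h rfl
      exact Or.inr (Pool.Agent.HilH.hecke4 K hK σ τ hστ p hp f hM π π' l c c' k1 k2 k3 k4 k5 k6 k7
        k8 k9 k10 k11)
    · exact Or.inl h
  obtain ⟨D, h1, h2, h3, h4, h5⟩ :=
    Pool.Agent.HilH.field4 K hK σ τ hστ p q hp hq f a hpq hF hM C hC R hR hR'
  obtain ⟨L, hL1, hL2, hL3⟩ := Pool.Agent.HilH.hardy4 _ D
  refine ⟨L, hL1, fun s hs => ?_, hL3⟩
  have hsum : Summable fun j => (D.b j : ℂ) * ((D.x j * D.y j : ℝ) : ℂ) ^ (-s) := by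
    refine Summable.of_norm_bounded ((Pool.Agent.HilH.sF0 _ D).2.2.2.2.2 s.re hs.le) fun j => ?_
    rw [norm_mul, Complex.norm_cpow_eq_rpow_re_of_pos (mul_pos (D.hx j) (D.hy j)), Complex.neg_re,
      Complex.norm_real, Real.norm_eq_abs]
  have h6 := hsum.hasSum
  rw [hL2 s hs]
  unfold Pool.Agent.HilH.HD.DS
  simpa only [Pool.Agent.HilH.HD.b, h1, h2, h3, h4, h5] using h6

end Pool.Agent.Results.MP_d79f69_nt.HilbertHardy
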